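import Pool.Agent.V11107.CombLevels

/-!
# Graph matchbox manifolds at every finite level
-/

namespace Pool.Agent.Results.MP_598c06_an.FiniteLevels

open Pool.Agent.V11107.GraphMatchbox

/-- For every `k` the explicit graph matchbox manifold `closure L_{T_k}` in `𝔐_2` is at level
exactly `k`. Here `T_k = Tk k` is the tree with vertices `a^m` (`m ∈ ℤ`) and `a^m b` for the
integers `m ≥ 0` with fewer than `k` digits `1` in base two. -/
theorem result (k : ℕ) : ∀ j : ℕ, HasLevel j (Tk k) ↔ j = k :=
  fun j => hasLevel_iff_of_hasLevel (hasLevel_Tk k) j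

end Pool.Agent.Results.MP_598c06_an.FiniteLevels
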